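import Pool.Agent.Work.MP_5391ad_co.SFin
import Pool.Agent.Work.MP_5391ad_co.ZFin

namespace Pool.Agent.Results.MP_5391ad_co.SharpAsymptotics

open Pool.Agent.Work.MP_5391ad_co

/-- The number `N_n` of nearly decomposable `n × n` Boolean matrices is asymptotic to
`8 √2 e^(π^2/6) c (n!)^2 exp ((n + 2 L) (log L - 1) - κ L^(1/3) - log^2 L) L^(-14/3) (log L)^(-6)`
with `L = ell n`, where the constant `c > 0` is the limit of the explicit sequence `cseq`. -/
theorem result : ∃ c : ℝ, 0 < c ∧ Filter.Tendsto cseq Filter.atTop (nhds c) ∧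
    Filter.Tendsto (fun n : ℕ => (numND n : ℝ) /
      (8 * √2 * Real.exp (Real.pi ^ 2 / 6) * c * (n.factorial : ℝ) ^ 2 *
        Real.exp ((n + 2 * ell n) * (Real.log (ell n) - 1) - kappa * ell n ^ (1 / 3 : ℝ) -
          Real.log (ell n) ^ 2) *
        ell n ^ (-(14 / 3) : ℝ) * Real.log (ell n) ^ (-6 : ℝ))) Filter.atTop (nhds 1) :=
  final_of stageB

end Pool.Agent.Results.MP_5391ad_co.SharpAsymptotics
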